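import Pool.Agent.H76.MXT.Stmts

set_option autoImplicit false

namespace Pool.MXT

open Set

theorem tur_lift_mono {g : ℝ → ℂ} {s t s' t' : ℝ} {L : ℝ → ℝ} (h : IsLift g s t L)
    (hs : s ≤ s') (ht : t' ≤ t) : IsLift g s' t' L :=
  ⟨h.1.mono (Icc_subset_Icc hs ht), fun x hx => h.2 x ⟨hs.trans hx.1, hx.2.trans ht⟩⟩

theorem tur_ok_mono {g : ℝ → ℂ} {s t s' t' : ℝ} (h : Ok g s t)
    (hs : s ≤ s') (ht : t' ≤ t) : Ok g s' t' :=
  ⟨h.1.mono (Icc_subset_Icc hs ht), fun x hx => h.2 x ⟨hs.trans hx.1, hx.2.trans ht⟩⟩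

/-- TUR: rules for the change of the argument. -/
theorem tur_thm (h1 : S_LFU) : S_TUR := by
  intro g s t hst hok
  obtain ⟨⟨L, hL⟩, hu⟩ := h1 g s t hst hok
  have ht := hu L hL
  refine ⟨?_, ?_, ?_, ?_, ?_⟩
  · intro m hm
    have e1 := (h1 g s m hm.1 (tur_ok_mono hok le_rfl hm.2)).2 L (tur_lift_mono hL le_rfl hm.2)
    have e2 := (h1 g m t hm.2 (tur_ok_mono hok hm.1 le_rfl)).2 L (tur_lift_mono hL hm.1 le_rfl)
    rw [ht, e1, e2]
    ring
  · have ok1 : Ok (fun x => - g x) s t := ⟨hok.1.neg, fun x hx => neg_ne_zero.2 (hok.2 x hx)⟩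
    have l1 : IsLift (fun x => - g x) s t (fun x => L x + Real.pi) := by
      refine ⟨hL.1.add continuousOn_const, fun x hx => ?_⟩
      have := hL.2 x hx
      have e : Complex.exp ((((L x + Real.pi : ℝ)) : ℂ) * Complex.I) =
          - Complex.exp ((L x : ℂ) * Complex.I) := by
        rw [Complex.ofReal_add, add_mul, Complex.exp_add, Complex.exp_pi_mul_I]
        ring
      simp only [norm_neg]
      rw [e, mul_neg, ← this]
    rw [(h1 _ s t hst ok1).2 _ l1, ht]
    ring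
  · have hmap : MapsTo (fun x : ℝ => s + t - x) (Icc s t) (Icc s t) := by
      intro x hx
      exact ⟨by linarith [hx.2], by linarith [hx.1]⟩
    have hc : ContinuousOn (fun x : ℝ => s + t - x) (Icc s t) := by fun_prop
    have ok1 : Ok (fun x => g (s + t - x)) s t :=
      ⟨hok.1.comp hc hmap, fun x hx => hok.2 _ (hmap hx)⟩
    have l1 : IsLift (fun x => g (s + t - x)) s t (fun x => L (s + t - x)) :=
      ⟨hL.1.comp hc hmap, fun x hx => hL.2 _ (hmap hx)⟩
    rw [(h1 _ s t hst ok1).2 _ l1, ht]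
    have e1 : s + t - t = s := by ring
    have e2 : s + t - s = t := by ring
    simp only [e1, e2]
    ring
  · intro h hh
    have ok1 : Ok h s t := ⟨hok.1.congr hh, fun x hx => by rw [hh x hx]; exact hok.2 x hx⟩
    have l1 : IsLift h s t L := ⟨hL.1, fun x hx => by rw [hh x hx]; exact hL.2 x hx⟩
    rw [(h1 _ s t hst ok1).2 _ l1, ht]
  · have es := hL.2 s ⟨le_rfl, hst⟩
    have et := hL.2 t ⟨hst, le_rfl⟩
    rw [ht]
    have e : Complex.exp ((L t : ℂ) * Complex.I) =
        Complex.exp ((L s : ℂ) * Complex.I) * Complex.exp (((L t - L s : ℝ) : ℂ) * Complex.I) := by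
      rw [← Complex.exp_add]
      congr 1
      push_cast
      ring
    calc (‖g s‖ : ℂ) * g t = (‖g s‖ : ℂ) * ((‖g t‖ : ℂ) * Complex.exp ((L t : ℂ) * Complex.I)) := by
            rw [← et]
      _ = (‖g t‖ : ℂ) * ((‖g s‖ : ℂ) * Complex.exp ((L s : ℂ) * Complex.I)) *
            Complex.exp (((L t - L s : ℝ) : ℂ) * Complex.I) := by
            rw [e]
            ring
      _ = _ := by rw [← es]

end Pool.MXT
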