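import Pool.Agent.H76.MXT.Stmts

set_option autoImplicit false

namespace Pool.MXT

open Set

theorem lc2_near {A : ℝ → ℝ × ℝ} {s₀ h : ℝ} {U : Set (ℝ × ℝ)} (hh : 0 < h)
    (hA : ContinuousOn A (Icc (s₀ - h) (s₀ + h))) (hU : IsOpen U) (hs : A s₀ ∈ U) :
    ∃ e : ℝ, 0 < e ∧ ∀ s, |s - s₀| < e → A s ∈ U := by
  have hc : ContinuousAt A s₀ :=
    hA.continuousAt (Icc_mem_nhds (by linarith) (by linarith))
  have hn : A ⁻¹' U ∈ nhds s₀ := hc (hU.mem_nhds hs)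
  obtain ⟨e, he, hb⟩ := Metric.mem_nhds_iff.1 hn
  refine ⟨e, he, fun s hs' => hb ?_⟩
  rw [Metric.mem_ball, Real.dist_eq]
  exact hs'

theorem lc2_tc : Continuous tc := by
  have : tc = fun q : ℝ × ℝ => (q.1 : ℂ) + (q.2 : ℂ) * Complex.I := by
    funext q
    apply Complex.ext <;> simp [tc]
  rw [this]
  fun_prop

theorem lc2_tcinj : Function.Injective tc := by
  intro x y hxy
  have h1 := congrArg Complex.re hxy
  have h2 := congrArg Complex.im hxy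
  exact Prod.ext h1 h2

theorem lc2_core (h1 : S_HM2) (h2 : S_OPP) {X Y : Set (ℝ × ℝ)} {p : ℝ × ℝ}
    (hpc : MCR.ProperCrossing X Y p) (A B : ℝ → ℝ × ℝ) (s₀ t₀ h ε : ℝ) (hh : 0 < h)
    (hε : ε = 1 ∨ ε = -1)
    (hA : ContinuousOn A (Icc (s₀ - h) (s₀ + h))) (hB : ContinuousOn B (Icc (t₀ - h) (t₀ + h)))
    (iA : InjOn A (Icc (s₀ - h) (s₀ + h))) (iB : InjOn B (Icc (t₀ - h) (t₀ + h)))
    (hAX : ∀ u ∈ Icc 0 h, A (s₀ - u) ∈ X) (hAY : ∀ u ∈ Icc 0 h, A (s₀ + u) ∈ Y)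
    (hBX : ∀ u ∈ Icc 0 h, B (t₀ - ε * u) ∈ X) (hBY : ∀ u ∈ Icc 0 h, B (t₀ + ε * u) ∈ Y)
    (hAp : A s₀ = p) (hBp : B t₀ = p)
    (hsep : ∀ s ∈ Icc (s₀ - h) (s₀ + h), ∀ t ∈ Icc (t₀ - h) (t₀ + h),
      A s = B t → s = s₀ ∧ t = t₀) :
    ZLoc A B s₀ t₀ 0 := by
  obtain ⟨Φ, U, hUo, hpU, hΦp, hU⟩ := hpc
  obtain ⟨e1, he1, hb1⟩ := lc2_near hh hA hUo (by rw [hAp]; exact hpU)
  obtain ⟨e2, he2, hb2⟩ := lc2_near hh hB hUo (by rw [hBp]; exact hpU)
  refine ⟨min h (min (e1 / 2) (e2 / 2)), lt_min hh (lt_min (by linarith) (by linarith)),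
    fun δ hδ hδ' => ⟨0, ?_⟩⟩
  have hδh : δ ≤ h := hδ'.trans (min_le_left _ _)
  have hδ1 : δ < e1 := by
    have := hδ'.trans ((min_le_right _ _).trans (min_le_left _ _))
    linarith
  have hδ2 : δ < e2 := by
    have := hδ'.trans ((min_le_right _ _).trans (min_le_right _ _))
    linarith
  -- the curves stay in U
  have UA : ∀ u : ℝ, |u| ≤ δ → A (s₀ + u) ∈ U := by
    intro u hu
    apply hb1
    have : s₀ + u - s₀ = u := by ring
    rw [this]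
    exact lt_of_le_of_lt hu hδ1
  have UB : ∀ u : ℝ, |u| ≤ δ → B (t₀ + u) ∈ U := by
    intro u hu
    apply hb2
    have : t₀ + u - t₀ = u := by ring
    rw [this]
    exact lt_of_le_of_lt hu hδ2
  have sA : Icc (s₀ - δ) (s₀ + δ) ⊆ Icc (s₀ - h) (s₀ + h) :=
    Icc_subset_Icc (by linarith) (by linarith)
  have sB : Icc (t₀ - δ) (t₀ + δ) ⊆ Icc (t₀ - h) (t₀ + h) :=
    Icc_subset_Icc (by linarith) (by linarith)
  have abs_u : ∀ u ∈ Icc (0 : ℝ) δ, |u| ≤ δ ∧ |-u| ≤ δ ∧ |ε * u| ≤ δ ∧ |-(ε * u)| ≤ δ := by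
    intro u hu
    have h0 : |u| = u := abs_of_nonneg hu.1
    have h1' : |ε * u| = u := by
      rcases hε with h | h <;> rw [h] <;> simp [h0]
    refine ⟨by rw [h0]; exact hu.2, by rw [abs_neg, h0]; exact hu.2, by rw [h1']; exact hu.2, ?_⟩
    rw [abs_neg, h1']
    exact hu.2
  have memA : ∀ v : ℝ, |v| ≤ δ → s₀ + v ∈ Icc (s₀ - δ) (s₀ + δ) := by
    intro v hv
    have := abs_le.1 hv
    exact ⟨by linarith [this.1], by linarith [this.2]⟩
  have memB : ∀ v : ℝ, |v| ≤ δ → t₀ + v ∈ Icc (t₀ - δ) (t₀ + δ) := by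
    intro v hv
    have := abs_le.1 hv
    exact ⟨by linarith [this.1], by linarith [this.2]⟩
  -- coordinates along the axes
  have cAX : ∀ u ∈ Icc (0 : ℝ) δ, (Φ (A (s₀ + -u))).2 = 0 := by
    intro u hu
    have hm : A (s₀ + -u) ∈ X := by
      have := hAX u ⟨hu.1, hu.2.trans hδh⟩
      rwa [sub_eq_add_neg] at this
    exact ((hU _ (UA _ (abs_u u hu).2.1)).1).1 hm
  have cAY : ∀ u ∈ Icc (0 : ℝ) δ, (Φ (A (s₀ + u))).1 = 0 := by
    intro u hu
    exact ((hU _ (UA _ (abs_u u hu).1)).2).1 (hAY u ⟨hu.1, hu.2.trans hδh⟩)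
  have cBX : ∀ u ∈ Icc (0 : ℝ) δ, (Φ (B (t₀ + -(ε * u)))).2 = 0 := by
    intro u hu
    have hm : B (t₀ + -(ε * u)) ∈ X := by
      have := hBX u ⟨hu.1, hu.2.trans hδh⟩
      rwa [sub_eq_add_neg] at this
    exact ((hU _ (UB _ (abs_u u hu).2.2.2)).1).1 hm
  have cBY : ∀ u ∈ Icc (0 : ℝ) δ, (Φ (B (t₀ + ε * u))).1 = 0 := by
    intro u hu
    exact ((hU _ (UB _ (abs_u u hu).2.2.1)).2).1 (hBY u ⟨hu.1, hu.2.trans hδh⟩)
  have zA : ∀ s ∈ Icc (s₀ - δ) (s₀ + δ), Φ (A s) = 0 → s = s₀ := by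
    intro s hs hz
    have e : A s = A s₀ := by
      apply Φ.injective
      rw [hz, hAp, hΦp]
      rfl
    exact iA (sA hs) ⟨by linarith, by linarith⟩ e
  have zB : ∀ t ∈ Icc (t₀ - δ) (t₀ + δ), Φ (B t) = 0 → t = t₀ := by
    intro t ht hz
    have e : B t = B t₀ := by
      apply Φ.injective
      rw [hz, hBp, hΦp]
      rfl
    exact iB (sB ht) ⟨by linarith, by linarith⟩ e
  have sep : ∀ s ∈ Icc (s₀ - δ) (s₀ + δ), ∀ t ∈ Icc (t₀ - δ) (t₀ + δ),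
      Φ (A s) = Φ (B t) → s = s₀ := by
    intro s hs t ht he
    exact (hsep s (sA hs) t (sB ht) (Φ.injective he)).1
  have contA : ContinuousOn (fun s => Φ (A s)) (Icc (s₀ - δ) (s₀ + δ)) :=
    Φ.continuous.comp_continuousOn (hA.mono sA)
  have contB : ContinuousOn (fun t => Φ (B t)) (Icc (t₀ - δ) (t₀ + δ)) :=
    Φ.continuous.comp_continuousOn (hB.mono sB)
  have contA' : ∀ κ : ℝ, (κ = 1 ∨ κ = -1) →
      ContinuousOn (fun u => Φ (A (s₀ + κ * u))) (Icc 0 δ) := by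
    intro κ hκ
    have hm : MapsTo (fun u : ℝ => s₀ + κ * u) (Icc 0 δ) (Icc (s₀ - δ) (s₀ + δ)) := by
      intro u hu
      apply memA
      rcases hκ with h | h
      · rw [h, one_mul]; exact (abs_u u hu).1
      · rw [h, neg_one_mul]; exact (abs_u u hu).2.1
    exact contA.comp (by fun_prop) hm
  have contB' : ∀ κ : ℝ, (κ = 1 ∨ κ = -1) →
      ContinuousOn (fun u => Φ (B (t₀ + κ * u))) (Icc 0 δ) := by
    intro κ hκ
    have hm : MapsTo (fun u : ℝ => t₀ + κ * u) (Icc 0 δ) (Icc (t₀ - δ) (t₀ + δ)) := by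
      intro u hu
      apply memB
      rcases hκ with h | h
      · rw [h, one_mul]; exact (abs_u u hu).1
      · rw [h, neg_one_mul]; exact (abs_u u hu).2.1
    exact contB.comp (by fun_prop) hm
  have zero_u : ∀ u ∈ Ioc (0 : ℝ) δ, u ∈ Icc (0 : ℝ) δ := fun u hu => ⟨hu.1.le, hu.2⟩
  have hp0 : ∀ q : ℝ × ℝ, q.1 = 0 → q.2 = 0 → q = 0 := fun q a b => Prod.ext a b
  have hpe : ∀ q r : ℝ × ℝ, q.1 = r.1 → q.2 = r.2 → q = r := fun q r a b => Prod.ext a b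
  have nε : -ε = 1 ∨ -ε = -1 := by
    rcases hε with h | h
    · right; rw [h]
    · left; rw [h]; norm_num
  -- first coordinates
  obtain ⟨σ, hσ, ha1, hb1'⟩ := h2 (fun u => (Φ (A (s₀ + -u))).1)
    (fun u => (Φ (B (t₀ + -(ε * u)))).1) δ hδ
    (by
      have := (contA' (-1) (Or.inr rfl)).fst
      simpa only [neg_one_mul] using this)
    (by
      have := (contB' (-ε) nε).fst
      simpa only [neg_mul] using this)
    (by simp [hAp, hΦp])
    (by simp [hBp, hΦp])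
    (by
      intro u hu h0
      have := zA _ (memA _ (abs_u u (zero_u u hu)).2.1) (hp0 _ h0 (cAX u (zero_u u hu)))
      linarith [hu.1])
    (by
      intro u hu h0
      have h3 := zB _ (memB _ (abs_u u (zero_u u hu)).2.2.2) (hp0 _ h0 (cBX u (zero_u u hu)))
      have h4 : ε * u = 0 := by linarith
      rcases hε with h | h <;> rw [h] at h4 <;> linarith [hu.1])
    (by
      intro u hu v hv h0
      have := sep _ (memA _ (abs_u u (zero_u u hu)).2.1) _ (memB _ (abs_u v (zero_u v hv)).2.2.2)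
        (hpe _ _ h0 (by rw [cAX u (zero_u u hu), cBX v (zero_u v hv)]))
      linarith [hu.1])
  -- second coordinates
  obtain ⟨τ, hτ, ha2, hb2'⟩ := h2 (fun u => (Φ (A (s₀ + u))).2)
    (fun u => (Φ (B (t₀ + ε * u))).2) δ hδ
    (by
      have := (contA' 1 (Or.inl rfl)).snd
      simpa only [one_mul] using this)
    ((contB' ε hε).snd)
    (by simp [hAp, hΦp])
    (by simp [hBp, hΦp])
    (by
      intro u hu h0
      have := zA _ (memA _ (abs_u u (zero_u u hu)).1) (hp0 _ (cAY u (zero_u u hu)) h0)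
      linarith [hu.1])
    (by
      intro u hu h0
      have h3 := zB _ (memB _ (abs_u u (zero_u u hu)).2.2.1) (hp0 _ (cBY u (zero_u u hu)) h0)
      have h4 : ε * u = 0 := by linarith
      rcases hε with h | h <;> rw [h] at h4 <;> linarith [hu.1])
    (by
      intro u hu v hv h0
      have := sep _ (memA _ (abs_u u (zero_u u hu)).1) _ (memB _ (abs_u v (zero_u v hv)).2.2.1)
        (hpe _ _ (by rw [cAY u (zero_u u hu), cBY v (zero_u v hv)]) h0)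
      linarith [hu.1])
  -- the winding
  have key := h1 (fun q => tc (Φ.symm q)) (fun s => Φ (A s)) (fun t => Φ (B t)) s₀ t₀ δ σ τ
    (lc2_tc.comp Φ.symm.continuous) (lc2_tcinj.comp Φ.symm.injective) hδ hσ hτ contA contB
    (by
      intro s hs
      refine ⟨?_, ?_, zA s hs⟩
      · rcases le_total s s₀ with h | h
        · have := ha1 (s₀ - s) ⟨by linarith, by linarith [hs.1]⟩
          have e : s₀ + -(s₀ - s) = s := by ring
          simpa only [e] using this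
        · have := cAY (s - s₀) ⟨by linarith, by linarith [hs.2]⟩
          have e : s₀ + (s - s₀) = s := by ring
          rw [e] at this
          rw [this, mul_zero]
      · rcases le_total s s₀ with h | h
        · have := cAX (s₀ - s) ⟨by linarith, by linarith [hs.1]⟩
          have e : s₀ + -(s₀ - s) = s := by ring
          rw [e] at this
          rw [this, mul_zero]
        · have := ha2 (s - s₀) ⟨by linarith, by linarith [hs.2]⟩
          have e : s₀ + (s - s₀) = s := by ring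
          simpa only [e] using this)
    (by
      intro t ht
      have hcase : (∃ u ∈ Icc (0 : ℝ) δ, t = t₀ + -(ε * u)) ∨ (∃ u ∈ Icc (0 : ℝ) δ, t = t₀ + ε * u) := by
        rcases hε with hh' | hh' <;> rcases le_total t t₀ with h | h
        · left; exact ⟨t₀ - t, ⟨by linarith, by linarith [ht.1]⟩, by rw [hh']; ring⟩
        · right; exact ⟨t - t₀, ⟨by linarith, by linarith [ht.2]⟩, by rw [hh']; ring⟩
        · right; exact ⟨t₀ - t, ⟨by linarith, by linarith [ht.1]⟩, by rw [hh']; ring⟩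
        · left; exact ⟨t - t₀, ⟨by linarith, by linarith [ht.2]⟩, by rw [hh']; ring⟩
      refine ⟨?_, ?_, zB t ht⟩
      · rcases hcase with ⟨u, hu, e⟩ | ⟨u, hu, e⟩
        · have := hb1' u hu
          rw [e]
          exact this
        · have := cBY u hu
          rw [e, this, mul_zero]
      · rcases hcase with ⟨u, hu, e⟩ | ⟨u, hu, e⟩
        · have := cBX u hu
          rw [e, this, mul_zero]
        · have := hb2' u hu
          rw [e]
          exact this)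
  have hDF : DF A B = fun s t => tc (Φ.symm (Φ (A s))) - tc (Φ.symm (Φ (B t))) := by
    funext s t
    simp [DF]
  rw [hDF]
  simp only
  rw [key]
  simp

/-- LC2: two curves that both turn at a proper crossing. -/
theorem lc2_thm (h1 : S_HM2) (h2 : S_OPP) (h3 : S_PCS) : S_LC2 := by
  intro X Y p hpc A B s₀ t₀ h hh hA hB iA iB cA cB hAp hBp hsep
  have mA1 : ∀ {Z : Set (ℝ × ℝ)}, (∀ s ∈ Icc (s₀ - h) s₀, A s ∈ Z) →
      ∀ u ∈ Icc 0 h, A (s₀ - u) ∈ Z :=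
    fun H u hu => H _ ⟨by linarith [hu.2], by linarith [hu.1]⟩
  have mA2 : ∀ {Z : Set (ℝ × ℝ)}, (∀ s ∈ Icc s₀ (s₀ + h), A s ∈ Z) →
      ∀ u ∈ Icc 0 h, A (s₀ + u) ∈ Z :=
    fun H u hu => H _ ⟨by linarith [hu.1], by linarith [hu.2]⟩
  have mB1 : ∀ {Z : Set (ℝ × ℝ)}, (∀ s ∈ Icc (t₀ - h) t₀, B s ∈ Z) →
      ∀ u ∈ Icc 0 h, B (t₀ - u) ∈ Z :=
    fun H u hu => H _ ⟨by linarith [hu.2], by linarith [hu.1]⟩
  have mB2 : ∀ {Z : Set (ℝ × ℝ)}, (∀ s ∈ Icc t₀ (t₀ + h), B s ∈ Z) →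
      ∀ u ∈ Icc 0 h, B (t₀ + u) ∈ Z :=
    fun H u hu => H _ ⟨by linarith [hu.1], by linarith [hu.2]⟩
  have tr1 : ∀ {Z : Set (ℝ × ℝ)}, (∀ u ∈ Icc 0 h, B (t₀ - u) ∈ Z) →
      ∀ u ∈ Icc 0 h, B (t₀ - 1 * u) ∈ Z := by
    intro Z H u hu
    rw [one_mul]
    exact H u hu
  have tr2 : ∀ {Z : Set (ℝ × ℝ)}, (∀ u ∈ Icc 0 h, B (t₀ + u) ∈ Z) →
      ∀ u ∈ Icc 0 h, B (t₀ + 1 * u) ∈ Z := by
    intro Z H u hu
    rw [one_mul]
    exact H u hu
  have tr3 : ∀ {Z : Set (ℝ × ℝ)}, (∀ u ∈ Icc 0 h, B (t₀ + u) ∈ Z) →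
      ∀ u ∈ Icc 0 h, B (t₀ - (-1) * u) ∈ Z := by
    intro Z H u hu
    have e : t₀ - (-1) * u = t₀ + u := by ring
    rw [e]
    exact H u hu
  have tr4 : ∀ {Z : Set (ℝ × ℝ)}, (∀ u ∈ Icc 0 h, B (t₀ - u) ∈ Z) →
      ∀ u ∈ Icc 0 h, B (t₀ + (-1) * u) ∈ Z := by
    intro Z H u hu
    have e : t₀ + (-1) * u = t₀ - u := by ring
    rw [e]
    exact H u hu
  rcases cA with ⟨a1, a2⟩ | ⟨a1, a2⟩
  · rcases cB with ⟨b1, b2⟩ | ⟨b1, b2⟩
    · exact lc2_core h1 h2 hpc A B s₀ t₀ h 1 hh (Or.inl rfl) hA hB iA iB (mA1 a1) (mA2 a2)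
        (tr1 (mB1 b1)) (tr2 (mB2 b2)) hAp hBp hsep
    · exact lc2_core h1 h2 hpc A B s₀ t₀ h (-1) hh (Or.inr rfl) hA hB iA iB (mA1 a1) (mA2 a2)
        (tr3 (mB2 b2)) (tr4 (mB1 b1)) hAp hBp hsep
  · have hpc' := h3 X Y p hpc
    rcases cB with ⟨b1, b2⟩ | ⟨b1, b2⟩
    · exact lc2_core h1 h2 hpc' A B s₀ t₀ h (-1) hh (Or.inr rfl) hA hB iA iB (mA1 a1) (mA2 a2)
        (tr3 (mB2 b2)) (tr4 (mB1 b1)) hAp hBp hsep
    · exact lc2_core h1 h2 hpc' A B s₀ t₀ h 1 hh (Or.inl rfl) hA hB iA iB (mA1 a1) (mA2 a2)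
        (tr1 (mB1 b1)) (tr2 (mB2 b2)) hAp hBp hsep

end Pool.MXT
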